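import Pool.Agent.H95.CMC.Targets
import Pool.Agent.H65.CM4.Targets1

/-!
# CMC, row F_LNC: the number of the lines of an ideal modulo `f`
-/

set_option autoImplicit false

open MeasureTheory Set Filter NumberField
open scoped Real nonZeroDivisors
open Pool.Agent.H65.CM4 Pool.Agent.H65.CMC Pool.Agent.H95.CMC

namespace Pool.Agent.H73.CMC

/-- a finite ring in which always `a` or `1 - a` is a unit -/
theorem card_le_two_mul {R : Type} [CommRing R] [Finite R]
    (h : ∀ a : R, IsUnit a ∨ IsUnit (1 - a)) : Nat.card R ≤ 2 * Nat.card Rˣ := by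
  classical
  have h' : ∀ a : R, ¬ IsUnit a → IsUnit (1 - a) := fun a ha => (h a).resolve_left ha
  let g : R → Bool × Rˣ := fun a =>
    if h1 : IsUnit a then (true, h1.unit) else (false, (h' a h1).unit)
  have hg : Function.Injective g := by
    intro a b hab
    by_cases ha : IsUnit a
    · by_cases hb : IsUnit b
      · have h1 : ha.unit = hb.unit := by
          simpa only [g, dif_pos ha, dif_pos hb, Prod.mk.injEq, true_and] using hab
        have h2 := congrArg (fun u : Rˣ => (u : R)) h1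
        simpa using h2
      · simp [g, ha, hb] at hab
    · by_cases hb : IsUnit b
      · simp [g, ha, hb] at hab
      · have h1 : (h' a ha).unit = (h' b hb).unit := by
          simpa only [g, dif_neg ha, dif_neg hb, Prod.mk.injEq, true_and] using hab
        have h2 := congrArg (fun u : Rˣ => (u : R)) h1
        simp only [IsUnit.unit_spec] at h2
        exact sub_right_injective h2
  have h2 := Nat.card_le_card_of_injective g hg
  rwa [Nat.card_prod, Nat.card_eq_fintype_card (α := Bool), Fintype.card_bool] at h2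

section

variable {k : Type} [Field k] [NumberField k]

theorem finite_quot' (f : Ideal (𝓞 k)) (hf : f ≠ ⊥) : Finite (𝓞 k ⧸ f) := by
  apply Nat.finite_of_card_ne_zero
  have h1 : Ideal.absNorm f = Nat.card (𝓞 k ⧸ f) := rfl
  rw [← h1]
  exact fun h => hf (Ideal.absNorm_eq_zero_iff.1 h)

theorem pf_eq (f : Ideal (𝓞 k)) :
    (pf f).card = Fintype.card ((UniqueFactorizationMonoid.factors f).toFinset) := by
  classical
  rw [Fintype.card_coe]
  unfold pf
  rw [UniqueFactorizationMonoid.factors_eq_normalizedFactors]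

/-- the number of the units modulo `f` -/
theorem nm_le_units (f : Ideal (𝓞 k)) (hf : f ≠ ⊥) :
    Ideal.absNorm f ≤ 2 ^ (pf f).card * Nat.card (𝓞 k ⧸ f)ˣ := by
  classical
  have hfin := finite_quot' f hf
  have e := IsDedekindDomain.quotientEquivPiFactors hf
  have e2 : (𝓞 k ⧸ f)ˣ ≃* ∀ P : (UniqueFactorizationMonoid.factors f).toFinset,
      (𝓞 k ⧸ (P : Ideal (𝓞 k)) ^ (Multiset.count (P : Ideal (𝓞 k))
        (UniqueFactorizationMonoid.factors f)))ˣ :=
    (Units.mapEquiv e.toMulEquiv).trans MulEquiv.piUnits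
  have h0 : Ideal.absNorm f = Nat.card (𝓞 k ⧸ f) := rfl
  rw [h0, Nat.card_congr e.toEquiv, Nat.card_congr e2.toEquiv, Nat.card_pi, Nat.card_pi, pf_eq]
  have hle : ∀ P : (UniqueFactorizationMonoid.factors f).toFinset,
      Nat.card (𝓞 k ⧸ (P : Ideal (𝓞 k)) ^ (Multiset.count (P : Ideal (𝓞 k))
        (UniqueFactorizationMonoid.factors f))) ≤
      2 * Nat.card (𝓞 k ⧸ (P : Ideal (𝓞 k)) ^ (Multiset.count (P : Ideal (𝓞 k))
        (UniqueFactorizationMonoid.factors f)))ˣ := by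
    intro P
    have hP : Prime (P : Ideal (𝓞 k)) :=
      UniqueFactorizationMonoid.prime_of_factor _ (Multiset.mem_toFinset.1 P.2)
    have hPm : (P : Ideal (𝓞 k)).IsMaximal := (Ideal.isPrime_of_prime hP).isMaximal hP.ne_zero
    have hfin2 : Finite (𝓞 k ⧸ (P : Ideal (𝓞 k)) ^ (Multiset.count (P : Ideal (𝓞 k))
        (UniqueFactorizationMonoid.factors f))) := finite_quot' _ (pow_ne_zero _ hP.ne_zero)
    apply card_le_two_mul
    intro a
    obtain ⟨x, rfl⟩ := Ideal.Quotient.mk_surjective a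
    by_cases hx : x ∈ (P : Ideal (𝓞 k))
    · right
      rw [← map_one (Ideal.Quotient.mk _), ← map_sub]
      apply Ideal.Quotient.isUnit_mk_pow_of_notMem
      intro h1
      apply hPm.ne_top
      rw [Ideal.eq_top_iff_one]
      have h2 := Ideal.add_mem _ h1 hx
      rwa [sub_add_cancel] at h2
    · left
      exact Ideal.Quotient.isUnit_mk_pow_of_notMem _ hx
  refine (Finset.prod_le_prod' fun P _ => hle P).trans (le_of_eq ?_)
  rw [Finset.prod_mul_distrib, Finset.prod_const, Finset.card_univ]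

end

section

variable {k K : Type} [Field k] [NumberField k] [IsTotallyReal k] [Field K] [NumberField K]
  [IsTotallyComplex K] [Algebra k K] [Algebra.IsQuadraticExtension k K]

/-- the number of the lines times the number of the units -/
theorem card_Ln_units (hLNB : T_LNB) (f : Ideal (𝓞 k)) (I : Ideal (𝓞 K)) (hf : f ≠ ⊥)
    (hI : PrTo f I) : (Ln f I).card * Nat.card (𝓞 k ⧸ f)ˣ ≤ Ideal.absNorm f ^ 2 := by
  classical
  obtain ⟨hL1, hL2, hL3⟩ := hLNB k K f I hf hI
  have hinj : Function.Injective (algebraMap (𝓞 k) (𝓞 K)) :=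
    RingOfIntegers.algebraMap.injective k K
  set F : Ideal (𝓞 K) := f.map (algebraMap (𝓞 k) (𝓞 K)) with hF
  have hF0 : F ≠ ⊥ := by
    rw [hF, Ne, Ideal.map_eq_bot_iff_of_injective hinj]
    exact hf
  have hcm : ∀ x : 𝓞 k, algebraMap (𝓞 k) (𝓞 K) x ∈ F → x ∈ f := by
    intro x hx
    have h1 : F.comap (algebraMap (𝓞 k) (𝓞 K)) = f := Ideal.comap_map_eq_self_of_faithfullyFlat f
    rw [← h1]
    exact hx
  have hfinf := finite_quot' f hf
  have hfinF := finite_quot' F hF0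
  have hIF : F ⊓ I = F * I := by
    refine (Ideal.mul_eq_inf_of_isCoprime ?_).symm
    rw [Ideal.isCoprime_iff_sup_eq, sup_comm]
    exact hI.2
  have hex : ∀ Λ : Ln f I, ∃ l ∈ I, PrTo f (Ideal.span {l}) ∧ (Λ : Sl k K) = ln f I l :=
    fun Λ => (hL1 Λ).1 Λ.2
  choose l hl hp hΛ using hex
  have hle : f ≤ F.comap (algebraMap (𝓞 k) (𝓞 K)) := Ideal.le_comap_map
  have hunit : ∀ Λ : Ln f I, IsUnit (Ideal.Quotient.mk F (l Λ)) := by
    intro Λ
    have h1 : (1 : 𝓞 K) ∈ Ideal.span {l Λ} ⊔ F := by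
      rw [(hp Λ).2]
      exact Submodule.mem_top
    obtain ⟨s, hs, i, hi, hsi⟩ := Submodule.mem_sup.1 h1
    obtain ⟨a, ha⟩ := Ideal.mem_span_singleton'.1 hs
    refine IsUnit.of_mul_eq_one (Ideal.Quotient.mk F a) ?_
    have h4 : Ideal.Quotient.mk F i = 0 := Ideal.Quotient.eq_zero_iff_mem.2 hi
    have h5 := congrArg (Ideal.Quotient.mk F) hsi
    rw [map_add, h4, add_zero, map_one, ← ha, map_mul] at h5
    rw [mul_comm]
    exact h5
  let g : (Ln f I) × (𝓞 k ⧸ f)ˣ → (𝓞 K ⧸ F) := fun p =>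
    Ideal.quotientMap F (algebraMap (𝓞 k) (𝓞 K)) hle (p.2 : 𝓞 k ⧸ f) * Ideal.Quotient.mk F (l p.1)
  have hg : Function.Injective g := by
    rintro ⟨Λ, x⟩ ⟨Λ', y⟩ h
    simp only [g] at h
    obtain ⟨n, hn⟩ := Ideal.Quotient.mk_surjective (x : 𝓞 k ⧸ f)
    obtain ⟨m, hm⟩ := Ideal.Quotient.mk_surjective ((x⁻¹ : (𝓞 k ⧸ f)ˣ) : 𝓞 k ⧸ f)
    obtain ⟨n', hn'⟩ := Ideal.Quotient.mk_surjective (y : 𝓞 k ⧸ f)
    have hmn : 1 - m * n ∈ f := by
      rw [← Ideal.Quotient.eq_zero_iff_mem, map_sub, map_one, map_mul, hm, hn, Units.inv_mul,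
        sub_self]
    rw [← hn, ← hn', Ideal.quotientMap_mk, Ideal.quotientMap_mk, ← map_mul, ← map_mul,
      Ideal.Quotient.eq] at h
    have h1 : algebraMap (𝓞 k) (𝓞 K) n * l Λ - algebraMap (𝓞 k) (𝓞 K) n' * l Λ' ∈ F * I := by
      rw [← hIF]
      exact ⟨h, I.sub_mem (I.mul_mem_left _ (hl Λ)) (I.mul_mem_left _ (hl Λ'))⟩
    have h2 : l Λ ∈ (Λ' : Sl k K) := by
      rw [hΛ Λ']
      refine ⟨m * n', ?_⟩
      have h3 : l Λ - algebraMap (𝓞 k) (𝓞 K) (m * n') * l Λ' =
          algebraMap (𝓞 k) (𝓞 K) (1 - m * n) * l Λ + algebraMap (𝓞 k) (𝓞 K) m *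
            (algebraMap (𝓞 k) (𝓞 K) n * l Λ - algebraMap (𝓞 k) (𝓞 K) n' * l Λ') := by
        rw [map_sub, map_one, map_mul, map_mul]
        ring
      rw [h3]
      exact Ideal.add_mem _ (Ideal.mul_mem_mul (Ideal.mem_map_of_mem _ hmn) (hl Λ))
        (Ideal.mul_mem_left _ _ h1)
    have hLL : Λ = Λ' := by
      apply Subtype.ext
      rw [hΛ Λ]
      exact ((hL2 (l Λ) (hl Λ) (hp Λ) Λ' Λ'.2).1 h2).symm
    subst hLL
    have h4 : algebraMap (𝓞 k) (𝓞 K) (n - n') ∈ F := by
      have h5 : Ideal.Quotient.mk F (algebraMap (𝓞 k) (𝓞 K) (n - n')) *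
          Ideal.Quotient.mk F (l Λ) = 0 := by
        rw [← map_mul, Ideal.Quotient.eq_zero_iff_mem]
        have h6 : algebraMap (𝓞 k) (𝓞 K) (n - n') * l Λ =
          algebraMap (𝓞 k) (𝓞 K) n * l Λ - algebraMap (𝓞 k) (𝓞 K) n' * l Λ := by
          rw [map_sub]
          ring
        rw [h6]
        exact h
      rw [← Ideal.Quotient.eq_zero_iff_mem]
      exact (hunit Λ).mul_left_eq_zero.1 h5
    have h7 : (x : 𝓞 k ⧸ f) = y := by
      rw [← hn, ← hn', Ideal.Quotient.eq]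
      exact hcm _ h4
    rw [Units.ext h7]
  have hcard := Nat.card_le_card_of_injective g hg
  rw [Nat.card_prod, Nat.card_eq_fintype_card (α := Ln f I), Fintype.card_coe] at hcard
  have h1 : Ideal.absNorm F = Nat.card (𝓞 K ⧸ F) := rfl
  rw [← h1, hF, Ideal.absNorm_algebraMap, ← IsFractionRing.finrank_eq (𝓞 k) k (𝓞 K) K,
    Algebra.IsQuadraticExtension.finrank_eq_two] at hcard
  exact hcard

end

/-- (LNC) the number of the lines. -/
theorem pf_LNC (hDVI : ∀ (k : Type) [Field k] [NumberField k] [IsTotallyReal k],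
    Pool.Agent.H65.CM4.T_DVI k) (hLNB : T_LNB) : T_LNC := by
  intro k _ _ _ ε hε
  obtain ⟨C, hC, hD⟩ := hDVI k ε hε
  refine ⟨C, by linarith, ?_⟩
  intro K _ _ _ _ _ f I hf hI
  have h1 := card_Ln_units hLNB f I hf hI
  have h2 := nm_le_units f hf
  have hN : 0 < Ideal.absNorm f := Nat.pos_of_ne_zero fun h => hf (Ideal.absNorm_eq_zero_iff.1 h)
  have hN' : (0 : ℝ) < nm f := by
    unfold nm
    exact_mod_cast hN
  have h3 : (Ln f I).card ≤ 2 ^ (pf f).card * Ideal.absNorm f := by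
    have h4 : (Ln f I).card * Ideal.absNorm f ≤
        (2 ^ (pf f).card * Ideal.absNorm f) * Ideal.absNorm f := by
      calc (Ln f I).card * Ideal.absNorm f ≤
          (Ln f I).card * (2 ^ (pf f).card * Nat.card (𝓞 k ⧸ f)ˣ) := Nat.mul_le_mul_left _ h2
        _ = 2 ^ (pf f).card * ((Ln f I).card * Nat.card (𝓞 k ⧸ f)ˣ) := by ring
        _ ≤ 2 ^ (pf f).card * Ideal.absNorm f ^ 2 := Nat.mul_le_mul_left _ h1
        _ = (2 ^ (pf f).card * Ideal.absNorm f) * Ideal.absNorm f := by ring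
    exact Nat.le_of_mul_le_mul_right h4 hN
  have h5 : (2 : ℝ) ^ (pf f).card ≤ 3 ^ (pf f).card :=
    pow_le_pow_left₀ (by norm_num) (by norm_num) _
  have h6 := (hD f hf).2.2
  calc ((Ln f I).card : ℝ) ≤ 2 ^ (pf f).card * nm f := by
        unfold nm
        exact_mod_cast h3
    _ ≤ (C * nm f ^ ε) * nm f := mul_le_mul_of_nonneg_right (h5.trans h6) hN'.le
    _ = C * nm f ^ (1 + ε) := by
        rw [Real.rpow_add hN', Real.rpow_one]
        ring

end Pool.Agent.H73.CMC
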